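import Pool.Agent.Results.MP_6ab439_lc.AlmostAllReducts
import Pool.Agent.TH668.Csp.P1

/-!
# An unconditional circuit version of the Bodirsky-Pinsker dichotomy for almost all reducts

Circuits of monotone real gates with few further, arbitrary gates (for example NOT gates): a
template which pp-constructs `K_3`, on any finite or infinite domain, needs circuits of size
`2 ^ (N ^ c)` on `N` variables, also if `N ^ a`, `a < 1`, combinations of wires may enter further
gates and the circuits are randomized. On the other hand, for every homogeneous structure `𝔹` in a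
finite relational signature and every finite family `Γ` of `Aut(𝔹)`-invariant relations, for all but
a doubly exponentially small proportion of the `Aut(𝔹)`-invariant relations `R` the reduct
`𝔸 = (B; Γ, R)` of (an expansion of) `𝔹` either does not pp-construct `K_3`, and then `CSP(𝔸)` has
monotone circuits of polynomial size, or it pp-constructs `K_3`, and then it needs circuits of
exponential size.
-/

open scoped Classical
open Finset

namespace Pool.Agent.Results.MP_6ab439_lc.CircuitDichotomy

open Pool.Agent.W994.AR H630VC H630SD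

/-- The instances of the problem `CSP(𝔸)` over the variables `V` are the finite structures with the
domain `V`, that is the sets `F` of constraints `(i, x)`, `i` the name of a relation and `x` a tuple
of variables. The instance `F` is satisfiable if there is a homomorphism from it to `𝔸`. -/
def Sat {ι A V : Type} {ar : ι → ℕ} (𝔸 : Str ι ar A) (F : Set (Con ar V)) : Prop :=
  ∃ x : V → A, ∀ C ∈ F, (fun j => x (C.2 j)) ∈ 𝔸 C.1

/-- `CSP(𝔸)` has monotone circuits of polynomial size: for every `N` there is a circuit `l` with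
nondecreasing gates of fan-in two and no further gates, whose inputs are constants and the bits that
tell which constraints belong to the instance, whose number of gates is at most one plus twice the
number `∑ i, N ^ ar i` of constraints over `N` variables, and one of whose gates computes the
function which is `0` on the satisfiable instances and `1` on the unsatisfiable ones. -/
def HasMonotoneCircuits {ι A : Type} {ar : ι → ℕ} (𝔸 : Str ι ar A) : Prop :=
  ∀ N : ℕ, ∃ l : List (Set (Con ar (Fin N)) → ℝ), FProg (conInputs ar (Fin N)) l [] ∧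
    l.length ≤ 2 * Nat.card (Con ar (Fin N)) + 1 ∧ (fun F => if Sat 𝔸 F then 0 else 1) ∈ l

/-- The family `f r`, `r ∈ R`, of functions decides `CSP(𝔸)` with advantage `ξ`: on every instance
at least a fraction `1/2 + ξ` of the values is right, that is less than one if the instance is
satisfiable and at least one otherwise. -/
def Decides {ι A R : Type} [Fintype R] {ar : ι → ℕ} {N : ℕ} (𝔸 : Str ι ar A) (ξ : ℝ)
    (f : R → Set (Con ar (Fin N)) → ℝ) : Prop :=
  ∀ F : Set (Con ar (Fin N)),
    (Sat 𝔸 F → (1 / 2 + ξ) * Fintype.card R ≤ (univ.filter fun r => f r F < 1).card) ∧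
    (¬ Sat 𝔸 F → (1 / 2 + ξ) * Fintype.card R ≤ (univ.filter fun r => 1 ≤ f r F).card)

/-- `CSP(𝔸)` needs circuits of exponential size: for all `0 ≤ a < 1`, `0 < c < (1 - a) / 52` and
`ξ > 0` and all large `N`, every family of circuits with nondecreasing real gates of fan-in two and
further, arbitrary gates, such that the product of the numbers `w + 1` over the further gates of a
circuit, `w` the number of wires which enter the gate, is at most `N ^ a`, and which decides the
instances over `N` variables with advantage `ξ`, contains a circuit with more than `2 ^ (N ^ c)`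
gates and wires which enter further gates. -/
def NeedsExponentialCircuits {ι A : Type} {ar : ι → ℕ} (𝔸 : Str ι ar A) : Prop :=
  ∀ a c ξ : ℝ, 0 ≤ a → a < 1 → 0 < c → c < (1 - a) / 52 → 0 < ξ →
    ∃ N₀ : ℕ, ∀ N : ℕ, N₀ ≤ N → ∀ (R : Type) [Fintype R] [Nonempty R]
      (f : R → Set (Con ar (Fin N)) → ℝ) (l : R → List (Set (Con ar (Fin N)) → ℝ))
      (q : R → List (List ((Set (Con ar (Fin N)) → ℝ) × ℝ))),
      (∀ r, FProg (conInputs ar (Fin N)) (l r) (q r)) → (∀ r, f r ∈ l r) → Decides 𝔸 ξ f →
      (∀ r, (combos (q r) : ℝ) ≤ (N : ℝ) ^ a) →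
      ∃ r, (2 : ℝ) ^ ((N : ℝ) ^ c) < (l r).length + wires (q r)

/-- The dichotomy: `𝔸` does not pp-construct `K_3` and `CSP(𝔸)` has monotone circuits of polynomial
size, or `𝔸` pp-constructs `K_3` and `CSP(𝔸)` needs circuits of exponential size. -/
def Dichotomy {ι A : Type} {ar : ι → ℕ} (𝔸 : Str ι ar A) : Prop :=
  (¬ PPConstructsK3 𝔸 ∧ HasMonotoneCircuits 𝔸) ∨ (PPConstructsK3 𝔸 ∧ NeedsExponentialCircuits 𝔸)

/-- the OR of some inputs -/
theorem or_circuit {ι : Type} {ar : ι → ℕ} {N : ℕ} (S : Finset (Con ar (Fin N))) :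
    ∃ l : List (Set (Con ar (Fin N)) → ℝ), FProg (conInputs ar (Fin N)) l [] ∧
      l.length ≤ 2 * S.card + 1 ∧ (fun F => if ∃ C ∈ S, C ∈ F then 1 else 0) ∈ l := by
  induction S using Finset.induction_on with
  | empty =>
    refine ⟨[fun _ => 0], FProg.input FProg.nil (Or.inr ⟨0, rfl⟩), by simp, ?_⟩
    rw [List.mem_singleton]
    funext F
    exact if_neg (by simp)
  | insert C S hC ih =>
    obtain ⟨l, h1, h2, h3⟩ := ih
    have h4 : FProg (conInputs ar (Fin N)) ((fun F => if C ∈ F then 1 else 0) :: l) [] :=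
      FProg.input h1 (Or.inl ⟨C, rfl⟩)
    have h5 := FProg.gate (φ := max) (f := fun F => if C ∈ F then 1 else 0)
      (g := fun F => if ∃ C ∈ S, C ∈ F then 1 else 0) h4
      (fun a a' b b' h h' => max_le_max h h') (List.mem_cons_self) (List.mem_cons_of_mem _ h3)
    refine ⟨_, h5, ?_, ?_⟩
    · rw [List.length_cons, List.length_cons, card_insert_of_notMem hC]
      omega
    · refine List.mem_cons.2 (Or.inl ?_)
      funext F
      by_cases h6 : C ∈ F
      · rw [if_pos ⟨C, mem_insert_self _ _, h6⟩, if_pos h6]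
        by_cases h7 : ∃ C ∈ S, C ∈ F
        · rw [if_pos h7, max_self]
        · rw [if_neg h7, max_eq_left zero_le_one]
      · rw [if_neg h6]
        by_cases h7 : ∃ C ∈ S, C ∈ F
        · obtain ⟨C', h8, h9⟩ := h7
          rw [if_pos ⟨C', mem_insert_of_mem h8, h9⟩, if_pos ⟨C', h8, h9⟩,
            max_eq_right zero_le_one]
        · rw [if_neg h7, max_self, if_neg]
          rintro ⟨C', h8, h9⟩
          rcases mem_insert.1 h8 with rfl | h8
          · exact h6 h9
          · exact h7 ⟨C', h8, h9⟩

theorem circuits_of_const {ι A : Type} [Finite ι] {ar : ι → ℕ} {𝔸 : Str ι ar A}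
    (h : ConstEndo 𝔸) : HasMonotoneCircuits 𝔸 := by
  intro N
  have := Fintype.ofFinite (Con ar (Fin N))
  obtain ⟨l, h1, h2, h3⟩ := or_circuit (ar := ar) (N := N)
    (univ.filter fun C : Con ar (Fin N) => ¬ (𝔸 C.1).Nonempty)
  refine ⟨l, h1, le_trans h2 ?_, ?_⟩
  · rw [Nat.card_eq_fintype_card]
    have := card_filter_le (univ : Finset (Con ar (Fin N))) fun C => ¬ (𝔸 C.1).Nonempty
    rw [card_univ] at this
    omega
  · convert h3 using 2 with F
    obtain ⟨b, hb⟩ := h
    by_cases h4 : Sat 𝔸 F
    · rw [if_pos h4, if_neg]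
      rintro ⟨C, h5, h6⟩
      obtain ⟨x, hx⟩ := h4
      exact (mem_filter.1 h5).2 ⟨_, hx C h6⟩
    · rw [if_neg h4, if_pos]
      by_contra h5
      refine h4 ⟨fun _ => b, fun C hC => ?_⟩
      have h6 : (𝔸 C.1).Nonempty := by
        by_contra h6
        exact h5 ⟨C, mem_filter.2 ⟨mem_univ _, h6⟩, hC⟩
      obtain ⟨v, hv⟩ := h6
      exact hb C.1 v hv

theorem exponential_of_k3 {ι A : Type} {ar : ι → ℕ} {𝔸 : Str ι ar A} (h : PPConstructsK3 𝔸) :
    NeedsExponentialCircuits 𝔸 := fun a c ξ ha0 ha hc0 hc hξ =>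
  Pool.Agent.TH668.Csp.lower 𝔸 𝔸 3 le_rfl (Pool.Agent.TH668.Csp.constructs_of_k3 𝔸 h) a c ξ ha0 ha
    hc0 hc hξ

/-- Let `𝔹` be a homogeneous structure in a finite relational signature and let `Γ` be a finite
family of `Aut(𝔹)`-invariant relations. Then there are constants `C, c, δ > 0` such that the
dichotomy holds for all but a fraction of at most `t * C * exp (- δ * exp (c * m))` of the templates
`(B; Γ, R_1, ..., R_t)` with `t ≥ 1` invariant relations `R_j` of arities at least `m`. -/
theorem result {B σ ι : Type} [Nontrivial B] [Finite σ] [Finite ι] {arB : σ → ℕ} {arΓ : ι → ℕ}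
    (𝔹 : Str σ arB B) (h𝔹 : Homogeneous 𝔹) (Γ : Str ι arΓ B)
    (hΓ : ∀ l, Invar (autGroup 𝔹) (Γ l)) :
    ∃ C c δ : ℝ, 0 < C ∧ 0 < c ∧ 0 < δ ∧
      ∀ (t : ℕ) (k : Fin t → ℕ) (m : ℕ), 1 ≤ t → (∀ j, m ≤ k j) →
        Finite (∀ j, InvRel (autGroup 𝔹) (Fin (k j))) ∧
        (Nat.card {R : ∀ j, InvRel (autGroup 𝔹) (Fin (k j)) //
          ¬ Dichotomy (expand Γ (fun j => (R j).1))} : ℝ) ≤
          t * C * Real.exp (-(δ * Real.exp (c * m))) *
            Nat.card (∀ j, InvRel (autGroup 𝔹) (Fin (k j))) := by
  obtain ⟨hfin, -, -, C, c, δ, hC, hc, hδ, h, -⟩ := AlmostAllReducts.result 𝔹 h𝔹 Γ hΓ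
  refine ⟨C, c, δ, hC, hc, hδ, fun t k m ht hm => ?_⟩
  have hf : Finite (∀ j, InvRel (autGroup 𝔹) (Fin (k j))) := by
    have := fun j => hfin (k j)
    infer_instance
  refine ⟨hf, le_trans ?_ (h t k m ht hm)⟩
  have h1 : Nat.card {R : ∀ j, InvRel (autGroup 𝔹) (Fin (k j)) //
      ¬ Dichotomy (expand Γ (fun j => (R j).1))} ≤
      Nat.card {R : ∀ j, InvRel (autGroup 𝔹) (Fin (k j)) //
        ¬ (ConstEndo (expand Γ (fun j => (R j).1)) ∨
          PPMax (autGroup 𝔹) (expand Γ (fun j => (R j).1)))} := by
    apply Nat.card_le_card_of_injective (fun R => ⟨R.1, fun h => R.2 (by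
      rcases h with h | h
      · exact Or.inl ⟨not_k3_of_const h, circuits_of_const h⟩
      · exact Or.inr ⟨h.1, exponential_of_k3 h.1⟩)⟩)
    intro R R' h
    exact Subtype.ext (congrArg (fun x => x.1) h)
  exact_mod_cast h1

end Pool.Agent.Results.MP_6ab439_lc.CircuitDichotomy
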