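import Pool.Agent.Q327.SMT.Near

/-!
# The Bodirsky-Pinsker dichotomy under random perturbations of arbitrary templates

`𝔹` is homogeneous in a finite relational signature, `Γ` a finite family of `Aut(𝔹)`-invariant
relations. The templates `(B; Γ, R_1, ..., R_t)` with invariant `R_j` of arities `k_j` are given by
sets `X` of pairs of `j` and an orbit of `k_j`-tuples. If every orbit is put into `X` with its own
probability between `exp (-c k_j)` and `1 - exp (-c k_j)`, independently (for instance: if in an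
arbitrary template every orbit is flipped with a probability `ε ≥ exp (-c m)`, `m = min k_j`), then
the dichotomy holds for the template except with a probability of at most
`t C exp (-exp (c m) / 4)`. Moreover every template whose arities are large becomes a template of
maximal hardness after a change of at most `K` orbits in every relation, with `K` independent of
the arities.

Definitions from the starting files (`Pool.Agent.W994.AR`): `Str` (relational structure),
`autGroup`, `Homogeneous`, `FinitelyBounded`, `Invar` (invariant relation), `Orb` (orbits of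
tuples), `expand` (the structure with the relations of both families), `ConstEndo` (some constant
map is an endomorphism), `PPConstructsK3` (pp-constructs K_3), `PPDef` (pp-definable), `PPMax`
(pp-constructs K_3, pp-defines all invariant relations, and all polymorphisms are essentially
unary, in the closure of the group). `Orbs`, `rels` and `Prob` are in `Pool.Agent.Q327.SMT`.
-/

set_option autoImplicit false

namespace Pool.Agent.Results.MP_6ab439_lc.SmoothedTemplates

open Pool.Agent.W994.AR Pool.Agent.Q327.SMT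

/-- The dichotomy for the template `𝔸`: either `𝔸` has a constant endomorphism, does not
pp-construct `K_3` and its instances are trivial (an instance is satisfiable if and only if it has
no constraint with an empty relation), or `𝔸` pp-constructs `K_3`, every `Aut(𝔹)`-invariant
relation is pp-definable in `𝔸` and all polymorphisms are essentially unary (`PPMax`). -/
def Dichotomy {B σ ι : Type} {arB : σ → ℕ} {ar : ι → ℕ} (𝔹 : Str σ arB B) (𝔸 : Str ι ar B) :
    Prop :=
  (ConstEndo 𝔸 ∧ ¬ PPConstructsK3 𝔸 ∧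
    ∀ (X : Type) (𝕏 : Str ι ar X),
      (∃ f : X → B, ∀ i, ∀ v ∈ 𝕏 i, (fun j => f (v j)) ∈ 𝔸 i) ↔
        ∀ i, (𝕏 i).Nonempty → (𝔸 i).Nonempty) ∨
  PPMax (autGroup 𝔹) 𝔸

end Pool.Agent.Results.MP_6ab439_lc.SmoothedTemplates

open Pool.Agent.W994.AR Pool.Agent.Q327.SMT in
open Pool.Agent.Results.MP_6ab439_lc.SmoothedTemplates in
open Classical in
/-- Smoothed analysis of the templates `(B; Γ, R_1, ..., R_t)`, and the distance of every template
to the templates of maximal hardness. -/
theorem Pool.Agent.Results.MP_6ab439_lc.SmoothedTemplates.result {B σ ι : Type} [Nontrivial B]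
    [Finite σ] [Finite ι] {arB : σ → ℕ} {arΓ : ι → ℕ}
    (𝔹 : Str σ arB B) (h𝔹 : Homogeneous 𝔹) (Γ : Str ι arΓ B)
    (hΓ : ∀ l, Invar (autGroup 𝔹) (Γ l)) :
    -- the templates: invariant relations are given by sets of (finitely many) orbits, and all
    -- templates are reducts of homogeneous, finitely bounded structures
    ((∀ n, Finite (Orb (autGroup 𝔹) (Fin n))) ∧
      (∀ (t : ℕ) (k : Fin t → ℕ) (R : Str (Fin t) k B), (∀ j, Invar (autGroup 𝔹) (R j)) →
        ∃! X : Set (Orbs (autGroup 𝔹) k), rels (autGroup 𝔹) k X = R) ∧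
      (∀ (t : ℕ) (k : Fin t → ℕ) (X : Set (Orbs (autGroup 𝔹) k)),
        Homogeneous (expand 𝔹 (expand Γ (rels (autGroup 𝔹) k X))) ∧
        (FinitelyBounded 𝔹 → FinitelyBounded (expand 𝔹 (expand Γ (rels (autGroup 𝔹) k X)))))) ∧
    -- random templates
    (∃ C c : ℝ, 0 < C ∧ 0 < c ∧
      (∀ (t : ℕ) (k : Fin t → ℕ) (m : ℕ), 1 ≤ t → (∀ j, m ≤ k j) →
        ∀ p : Orbs (autGroup 𝔹) k → ℝ,
          (∀ x, Real.exp (-(c * k x.1)) ≤ p x ∧ p x ≤ 1 - Real.exp (-(c * k x.1))) →
          Prob p (fun _ => True) = 1 ∧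
          Prob p (fun X => ¬ Dichotomy 𝔹 (expand Γ (rels (autGroup 𝔹) k X))) ≤
            t * C * Real.exp (-(Real.exp (c * m) / 4))) ∧
      (∀ (t : ℕ) (k : Fin t → ℕ) (m : ℕ), 1 ≤ t → (∀ j, m ≤ k j) →
        ∀ (X₀ : Set (Orbs (autGroup 𝔹) k)) (ε : ℝ), Real.exp (-(c * m)) ≤ ε → ε ≤ 1 / 2 →
          Prob (fun x => if x ∈ X₀ then 1 - ε else ε)
            (fun X => ¬ Dichotomy 𝔹 (expand Γ (rels (autGroup 𝔹) k X))) ≤
            t * C * Real.exp (-(Real.exp (c * m) / 4)))) ∧
    -- distance to the hardest templates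
    (∃ K k₀ : ℕ, ∀ (t : ℕ) (k : Fin t → ℕ), 1 ≤ t → (∀ j, k₀ ≤ k j) →
      ∀ X₀ : Set (Orbs (autGroup 𝔹) k), ∃ X : Set (Orbs (autGroup 𝔹) k),
        (∀ j, {o : Orb (autGroup 𝔹) (Fin (k j)) |
          ¬ ((⟨j, o⟩ : Orbs (autGroup 𝔹) k) ∈ X ↔ (⟨j, o⟩ : Orbs (autGroup 𝔹) k) ∈ X₀)}.ncard
            ≤ K) ∧
        PPMax (autGroup 𝔹) (expand Γ (rels (autGroup 𝔹) k X))) := by
  have hfin : ∀ k, Finite (Orb (autGroup 𝔹) (Fin k)) := fun k => hom_finite h𝔹 (Fin k)
  -- rich families satisfy the dichotomy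
  have hdich : ∀ (t : ℕ) (k : Fin t → ℕ), 1 ≤ t → ∀ X : Set (Orbs (autGroup 𝔹) k),
      (∀ j, Rich (autGroup 𝔹) (Fin (dim arB arΓ)) (rels (autGroup 𝔹) k X j)) →
      Dichotomy 𝔹 (expand Γ (rels (autGroup 𝔹) k X)) := by
    intro t k ht X hX
    by_cases hc : ConstEndo (expand Γ (rels (autGroup 𝔹) k X))
    · exact Or.inl ⟨hc, not_k3_of_const hc, const_csp hc⟩
    · right
      have h := max_of_rich 𝔹 h𝔹 Γ hΓ ht
        (fun j => (⟨rels (autGroup 𝔹) k X j, rels_invar _ k X j⟩ : InvRel (autGroup 𝔹) (Fin (k j))))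
        hX hc
      exact h
  refine ⟨⟨hfin, fun t k R hR => rels_unique _ k R hR, ?_⟩, ?_, ?_⟩
  · intro t k X
    have hR : ∀ i, Invar (autGroup 𝔹) ((expand Γ (rels (autGroup 𝔹) k X)) i) := by
      rintro (l | j)
      · exact hΓ l
      · exact rels_invar _ k X j
    exact ⟨homogeneous_expand h𝔹 _ hR, fun hF => finitelyBounded_expand h𝔹 hF _ hR⟩
  · obtain ⟨C, c, hC, hc, h⟩ := many_bound (autGroup 𝔹) (dim arB arΓ) (dim_pos arB arΓ) hfin
    have main : ∀ (t : ℕ) (k : Fin t → ℕ) (m : ℕ), 1 ≤ t → (∀ j, m ≤ k j) →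
        ∀ p : Orbs (autGroup 𝔹) k → ℝ,
          (∀ x, Real.exp (-(c * k x.1)) ≤ p x ∧ p x ≤ 1 - Real.exp (-(c * k x.1))) →
          Prob p (fun X => ¬ Dichotomy 𝔹 (expand Γ (rels (autGroup 𝔹) k X))) ≤
            t * C * Real.exp (-(Real.exp (c * m) / 4)) := by
      intro t k m ht hm p hp
      have hF : ∀ i, Finite (Orb (autGroup 𝔹) (Fin (k i))) := fun i => hfin _
      have hp01 : ∀ o, 0 ≤ p o ∧ p o ≤ 1 := by
        intro o
        have h1 := hp o
        have h2 := Real.exp_pos (-(c * k o.1))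
        exact ⟨by linarith, by linarith⟩
      refine (prob_mono hp01 ?_).trans (h t k m p hm hp)
      intro X hX
      by_contra hcon
      push Not at hcon
      exact hX (hdich t k ht X hcon)
    refine ⟨C, c, hC, hc, ?_, ?_⟩
    · intro t k m ht hm p hp
      refine ⟨?_, main t k m ht hm p hp⟩
      have hF : ∀ i, Finite (Orb (autGroup 𝔹) (Fin (k i))) := fun i => hfin _
      exact prob_true p
    · intro t k m ht hm X₀ ε hε1 hε2
      apply main t k m ht hm
      intro x
      have h1 : Real.exp (-(c * k x.1)) ≤ ε := by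
        refine le_trans (Real.exp_le_exp.2 ?_) hε1
        have h2 : (m : ℝ) ≤ k x.1 := by exact_mod_cast hm x.1
        nlinarith
      by_cases hx : x ∈ X₀
      · simp only [if_pos hx]
        constructor <;> linarith
      · simp only [if_neg hx]
        constructor <;> linarith
  · obtain ⟨K, k₀, h⟩ := near_rich (autGroup 𝔹) (dim arB arΓ) (dim_pos arB arΓ) hfin
    refine ⟨K, k₀, ?_⟩
    intro t k ht hk X₀
    obtain ⟨X, h1, h2, h3⟩ := h t k hk X₀
    refine ⟨X, h1, ?_⟩
    rcases hdich t k ht X h2 with ⟨hc, _, _⟩ | h4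
    · exfalso
      obtain ⟨b, hb⟩ := hc
      obtain ⟨v, hv⟩ := rich_nonempty (dim_ge arB arΓ) (h2 ⟨0, ht⟩)
      have h5 := hb (Sum.inr ⟨0, ht⟩) v hv
      exact h3 _ h5 ⟨b, rfl⟩
    · exact h4
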