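import Pool.Agent.Q327.SMT.SymBound

/-!
# The Bodirsky-Pinsker dichotomy for almost all templates with symmetric relations

`𝔹` is homogeneous in a finite relational signature, `Γ` a finite family of `Aut(𝔹)`-invariant
relations. We consider the templates `(B; Γ, R_1, ..., R_t)`, where `R_j` is a relation of arity
`k_j` which is invariant under `Aut(𝔹)` and under an ARBITRARY group `H_j` of permutations of its
`k_j` coordinates (for instance the full symmetric group: totally symmetric relations; a cyclic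
group; the trivial group). They are given by sets of orbits of `k_j`-tuples under `Aut(𝔹) × H_j`.
If every orbit is taken with its own probability in `[ε, 1 - ε]`, independently, then the dichotomy
holds for the template except with a probability of at most `t C exp (-δ m)`, `m = min k_j`, where
`C` and `δ > 0` do not depend on the groups, the arities and the probabilities. In particular it
holds for all but this proportion of the templates.

Definitions from the starting files (`Pool.Agent.W994.AR`): `Str` (relational structure),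
`autGroup`, `Homogeneous`, `FinitelyBounded`, `Invar` (invariant relation), `expand` (the structure
with the relations of both families), `ConstEndo` (some constant map is an endomorphism),
`PPConstructsK3` (pp-constructs K_3), `PPDef` (pp-definable), `PPMax` (pp-constructs K_3,
pp-defines all invariant relations, and all polymorphisms are essentially unary, in the closure of
the group). `Orbs2`, `rels2` and `Prob` are in `Pool.Agent.Q327.SMT`.
-/

set_option autoImplicit false

namespace Pool.Agent.Results.MP_6ab439_lc.SymmetricTemplates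

open Pool.Agent.W994.AR Pool.Agent.Q327.SMT

/-- The dichotomy for the template `𝔸`: either `𝔸` has a constant endomorphism, does not
pp-construct `K_3` and its instances are trivial (an instance is satisfiable if and only if it has
no constraint with an empty relation), or `𝔸` pp-constructs `K_3`, every `Aut(𝔹)`-invariant
relation is pp-definable in `𝔸` and all polymorphisms are essentially unary (`PPMax`). -/
def Dichotomy {B σ ι : Type} {arB : σ → ℕ} {ar : ι → ℕ} (𝔹 : Str σ arB B) (𝔸 : Str ι ar B) :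
    Prop :=
  (ConstEndo 𝔸 ∧ ¬ PPConstructsK3 𝔸 ∧
    ∀ (X : Type) (𝕏 : Str ι ar X),
      (∃ f : X → B, ∀ i, ∀ v ∈ 𝕏 i, (fun j => f (v j)) ∈ 𝔸 i) ↔
        ∀ i, (𝕏 i).Nonempty → (𝔸 i).Nonempty) ∨
  PPMax (autGroup 𝔹) 𝔸

end Pool.Agent.Results.MP_6ab439_lc.SymmetricTemplates

open Pool.Agent.W994.AR Pool.Agent.Q327.SMT in
open Pool.Agent.Results.MP_6ab439_lc.SymmetricTemplates in
/-- The dichotomy for almost all templates `(B; Γ, R_1, ..., R_t)` whose relations `R_j` are
invariant under prescribed groups `H_j` of permutations of the coordinates. -/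
theorem Pool.Agent.Results.MP_6ab439_lc.SymmetricTemplates.result {B σ ι : Type} [Nontrivial B]
    [Finite σ] [Finite ι] {arB : σ → ℕ} {arΓ : ι → ℕ}
    (𝔹 : Str σ arB B) (h𝔹 : Homogeneous 𝔹) (Γ : Str ι arΓ B)
    (hΓ : ∀ l, Invar (autGroup 𝔹) (Γ l)) :
    -- the templates
    ((∀ (t : ℕ) (k : Fin t → ℕ) (H : ∀ j, Subgroup (Equiv.Perm (Fin (k j))))
        (R : Str (Fin t) k B),
        ((∀ j, Invar (autGroup 𝔹) (R j)) ∧ ∀ j, ∀ h ∈ H j, ∀ v ∈ R j, v ∘ h ∈ R j) ↔
        ∃! X : Set (Orbs2 (autGroup 𝔹) k H), rels2 (autGroup 𝔹) k H X = R) ∧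
      (∀ (t : ℕ) (k : Fin t → ℕ) (H : ∀ j, Subgroup (Equiv.Perm (Fin (k j))))
        (X : Set (Orbs2 (autGroup 𝔹) k H)),
        Homogeneous (expand 𝔹 (expand Γ (rels2 (autGroup 𝔹) k H X))) ∧
        (FinitelyBounded 𝔹 →
          FinitelyBounded (expand 𝔹 (expand Γ (rels2 (autGroup 𝔹) k H X)))))) ∧
    -- random templates
    (∀ ε : ℝ, 0 < ε → ε ≤ 1 / 2 → ∃ C δ : ℝ, 0 < C ∧ 0 < δ ∧
      ∀ (t : ℕ) (k : Fin t → ℕ) (m : ℕ), 1 ≤ t → (∀ j, m ≤ k j) →
        ∀ (H : ∀ j, Subgroup (Equiv.Perm (Fin (k j)))) (p : Orbs2 (autGroup 𝔹) k H → ℝ),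
          (∀ x, ε ≤ p x ∧ p x ≤ 1 - ε) →
          Prob p (fun _ => True) = 1 ∧
          Prob p (fun X => ¬ Dichotomy 𝔹 (expand Γ (rels2 (autGroup 𝔹) k H X))) ≤
            t * C * Real.exp (-(δ * m))) ∧
    -- the proportion of the exceptional templates
    (∃ C δ : ℝ, 0 < C ∧ 0 < δ ∧
      ∀ (t : ℕ) (k : Fin t → ℕ) (m : ℕ), 1 ≤ t → (∀ j, m ≤ k j) →
        ∀ (H : ∀ j, Subgroup (Equiv.Perm (Fin (k j)))),
          Finite (Set (Orbs2 (autGroup 𝔹) k H)) ∧
          ({X : Set (Orbs2 (autGroup 𝔹) k H) |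
            ¬ Dichotomy 𝔹 (expand Γ (rels2 (autGroup 𝔹) k H X))}.ncard : ℝ) ≤
            t * C * Real.exp (-(δ * m)) * Nat.card (Set (Orbs2 (autGroup 𝔹) k H))) := by
  have hfin : ∀ k, Finite (Orb (autGroup 𝔹) (Fin k)) := fun k => hom_finite h𝔹 (Fin k)
  -- rich families satisfy the dichotomy
  have hdich : ∀ (t : ℕ) (k : Fin t → ℕ) (H : ∀ j, Subgroup (Equiv.Perm (Fin (k j)))), 1 ≤ t →
      ∀ X : Set (Orbs2 (autGroup 𝔹) k H),
      (∀ j, Rich (autGroup 𝔹) (Fin (dim arB arΓ)) (rels2 (autGroup 𝔹) k H X j)) →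
      Dichotomy 𝔹 (expand Γ (rels2 (autGroup 𝔹) k H X)) := by
    intro t k H ht X hX
    by_cases hc : ConstEndo (expand Γ (rels2 (autGroup 𝔹) k H X))
    · exact Or.inl ⟨hc, not_k3_of_const hc, const_csp hc⟩
    · right
      have h := max_of_rich 𝔹 h𝔹 Γ hΓ ht
        (fun j => (⟨rels2 (autGroup 𝔹) k H X j, rels2_invar _ k H X j⟩ :
          InvRel (autGroup 𝔹) (Fin (k j)))) hX hc
      exact h
  have main : ∀ ε : ℝ, 0 < ε → ε ≤ 1 / 2 → ∃ C δ : ℝ, 0 < C ∧ 0 < δ ∧
      ∀ (t : ℕ) (k : Fin t → ℕ) (m : ℕ), 1 ≤ t → (∀ j, m ≤ k j) →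
        ∀ (H : ∀ j, Subgroup (Equiv.Perm (Fin (k j)))) (p : Orbs2 (autGroup 𝔹) k H → ℝ),
          (∀ x, ε ≤ p x ∧ p x ≤ 1 - ε) →
          Prob p (fun _ => True) = 1 ∧
          Prob p (fun X => ¬ Dichotomy 𝔹 (expand Γ (rels2 (autGroup 𝔹) k H X))) ≤
            t * C * Real.exp (-(δ * m)) := by
    intro ε hε0 hε1
    obtain ⟨C, δ, hC, hδ, h⟩ := many_bound2 (autGroup 𝔹) (dim arB arΓ) (dim_pos arB arΓ) hfin ε hε0
      (by linarith)
    refine ⟨C, δ, hC, hδ, ?_⟩
    intro t k m ht hm H p hp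
    have hF : ∀ i, Finite (Quotient (orb2 (autGroup 𝔹) (H i))) := fun i => by
      have := hfin (k i)
      exact finite_orb2 (autGroup 𝔹) (H i)
    have hp01 : ∀ o, 0 ≤ p o ∧ p o ≤ 1 := by
      intro o
      have h1 := hp o
      exact ⟨by linarith, by linarith⟩
    refine ⟨prob_true p, (prob_mono hp01 ?_).trans (h t k m H p hm hp01 hp)⟩
    intro X hX
    by_contra hcon
    push Not at hcon
    exact hX (hdich t k H ht X hcon)
  refine ⟨⟨?_, ?_⟩, main, ?_⟩
  · intro t k H R
    constructor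
    · rintro ⟨h1, h2⟩
      exact rels2_unique _ k H R h1 h2
    · rintro ⟨X, rfl, _⟩
      exact ⟨fun j => rels2_invar _ k H X j, fun j => rels2_sym _ k H X j⟩
  · intro t k H X
    have hR : ∀ i, Invar (autGroup 𝔹) ((expand Γ (rels2 (autGroup 𝔹) k H X)) i) := by
      rintro (l | j)
      · exact hΓ l
      · exact rels2_invar _ k H X j
    exact ⟨homogeneous_expand h𝔹 _ hR, fun hF => finitelyBounded_expand h𝔹 hF _ hR⟩
  · obtain ⟨C, δ, hC, hδ, h⟩ := main (1 / 2) (by norm_num) le_rfl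
    refine ⟨C, δ, hC, hδ, ?_⟩
    intro t k m ht hm H
    have hF : ∀ i, Finite (Quotient (orb2 (autGroup 𝔹) (H i))) := fun i => by
      have := hfin (k i)
      exact finite_orb2 (autGroup 𝔹) (H i)
    refine ⟨inferInstance, ?_⟩
    rw [prob_half]
    apply mul_le_mul_of_nonneg_right _ (Nat.cast_nonneg _)
    exact (h t k m ht hm H (fun _ => 1 / 2) (fun _ => ⟨le_rfl, by norm_num⟩)).2
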